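import Pool.Agent.Helper91.US.Defs2
import Pool.Agent.Helper74.US.Dbar1
import Pool.Agent.Helper91.US.MaxIneq
import Pool.Agent.Helper91.US.VLine
import Pool.Agent.Helper20.US.RecDer

set_option autoImplicit false

/-!
# US A6b: the bounds `h2`, `h3`, `c3` for the depth functional `DF n`
-/

namespace Pool.Agent.US

open Finset Filter Topology
open scoped ContDiff

namespace AB

/-! ### lines -/

section Line

variable {E G : Type*} [NormedAddCommGroup E] [NormedSpace ℝ E] [NormedAddCommGroup G]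
  [NormedSpace ℝ G]

theorem hasDerivAt_line {F : E → G} {O : Set E} (hO : IsOpen O) (hF : ContDiffOn ℝ ∞ F O)
    {m d : E} {t : ℝ} (ht : m + t • d ∈ O) :
    HasDerivAt (fun s : ℝ => F (m + s • d)) (fderiv ℝ F (m + t • d) d) t := by
  have h1 : DifferentiableAt ℝ F (m + t • d) :=
    (hF.contDiffAt (hO.mem_nhds ht)).differentiableAt (by simp)
  have h2 : HasDerivAt (fun s : ℝ => m + s • d) d t := by
    have := ((hasDerivAt_id t).smul_const d).const_add m
    simpa using this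
  exact h1.hasFDerivAt.comp_hasDerivAt t h2

theorem smooth_fderiv {F : E → G} {O : Set E} (hO : IsOpen O) (hF : ContDiffOn ℝ ∞ F O) :
    ContDiffOn ℝ ∞ (fderiv ℝ F) O :=
  hF.fderiv_of_isOpen hO (by simp)

theorem eventually_line {O : Set E} (hO : IsOpen O) {m d : E} {t : ℝ} (ht : m + t • d ∈ O) :
    ∀ᶠ s : ℝ in 𝓝 t, m + s • d ∈ O := by
  have hc : Continuous (fun s : ℝ => m + s • d) := by fun_prop
  exact (hc.tendsto t).eventually (hO.mem_nhds ht)

variable {f : E → ℝ} {O : Set E} {m d : E} {t : ℝ}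

theorem iter_one (hO : IsOpen O) (hf : ContDiffOn ℝ ∞ f O) (ht : m + t • d ∈ O) :
    iteratedDeriv 1 (fun s : ℝ => f (m + s • d)) t = fderiv ℝ f (m + t • d) d := by
  rw [iteratedDeriv_one]
  exact (hasDerivAt_line hO hf ht).deriv

theorem iter_two (hO : IsOpen O) (hf : ContDiffOn ℝ ∞ f O) (ht : m + t • d ∈ O) :
    iteratedDeriv 2 (fun s : ℝ => f (m + s • d)) t =
      fderiv ℝ (fderiv ℝ f) (m + t • d) d d := by
  rw [iteratedDeriv_succ]
  have h1 : iteratedDeriv 1 (fun s : ℝ => f (m + s • d)) =ᶠ[𝓝 t]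
      fun s => fderiv ℝ f (m + s • d) d := by
    filter_upwards [eventually_line hO ht] with s hs using iter_one hO hf hs
  rw [h1.deriv_eq]
  have h2 := hasDerivAt_line hO (smooth_fderiv hO hf) ht
  have h3 : HasDerivAt (fun s : ℝ => fderiv ℝ f (m + s • d) d)
      (fderiv ℝ (fderiv ℝ f) (m + t • d) d d) t :=
    (ContinuousLinearMap.apply ℝ ℝ d).hasFDerivAt.comp_hasDerivAt t h2
  exact h3.deriv

theorem hasDerivAt_iter_two (hO : IsOpen O) (hf : ContDiffOn ℝ ∞ f O) (ht : m + t • d ∈ O) :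
    HasDerivAt (iteratedDeriv 2 (fun s : ℝ => f (m + s • d)))
      (fderiv ℝ (fderiv ℝ (fderiv ℝ f)) (m + t • d) d d d) t := by
  have h1 : iteratedDeriv 2 (fun s : ℝ => f (m + s • d)) =ᶠ[𝓝 t]
      fun s => fderiv ℝ (fderiv ℝ f) (m + s • d) d d := by
    filter_upwards [eventually_line hO ht] with s hs using iter_two hO hf hs
  have h2 := hasDerivAt_line hO (smooth_fderiv hO (smooth_fderiv hO hf)) ht
  have h3 := (ContinuousLinearMap.apply ℝ (E →L[ℝ] ℝ) d).hasFDerivAt.comp_hasDerivAt t h2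
  have h4 := (ContinuousLinearMap.apply ℝ ℝ d).hasFDerivAt.comp_hasDerivAt t h3
  exact h4.congr_of_eventuallyEq h1

theorem hasDerivAt_iter_one (hO : IsOpen O) (hf : ContDiffOn ℝ ∞ f O) (ht : m + t • d ∈ O) :
    HasDerivAt (iteratedDeriv 1 (fun s : ℝ => f (m + s • d)))
      (fderiv ℝ (fderiv ℝ f) (m + t • d) d d) t := by
  have h1 : iteratedDeriv 1 (fun s : ℝ => f (m + s • d)) =ᶠ[𝓝 t]
      fun s => fderiv ℝ f (m + s • d) d := by
    filter_upwards [eventually_line hO ht] with s hs using iter_one hO hf hs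
  have h2 := hasDerivAt_line hO (smooth_fderiv hO hf) ht
  have h3 := (ContinuousLinearMap.apply ℝ ℝ d).hasFDerivAt.comp_hasDerivAt t h2
  exact h3.congr_of_eventuallyEq h1

theorem iter_three (hO : IsOpen O) (hf : ContDiffOn ℝ ∞ f O) (ht : m + t • d ∈ O) :
    iteratedDeriv 3 (fun s : ℝ => f (m + s • d)) t =
      fderiv ℝ (fderiv ℝ (fderiv ℝ f)) (m + t • d) d d d := by
  rw [iteratedDeriv_succ]
  exact (hasDerivAt_iter_two hO hf ht).deriv

end Line

/-! ### polarization -/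

theorem polar {E : Type*} [AddCommGroup E] [Module ℝ E] (B : E → E → ℝ) (N : E → ℝ) {C : ℝ}
    (hC : 0 ≤ C) (x y : E) (hN0 : ∀ z, 0 ≤ N z) (hb : ∀ z, |B z z| ≤ C * N z ^ 2)
    (hpol : ∀ t : ℝ, B (x + t • y) (x + t • y) - B (x + (-t) • y) (x + (-t) • y) = 4 * t * B x y)
    (hN : ∀ t : ℝ, N (x + t • y) ≤ N x + |t| * N y) :
    |B x y| ≤ 2 * C * (N x * N y) := by
  have key : ∀ ε : ℝ, 0 < ε → |B x y| ≤ 2 * C * ((N x + ε) * (N y + ε)) := by
    intro ε hε
    have ha : 0 < N x + ε := by linarith [hN0 x]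
    have hb' : 0 < N y + ε := by linarith [hN0 y]
    set a := N x + ε with hadef
    set b := N y + ε with hbdef
    set t := a / b with ht
    have htp : 0 < t := div_pos ha hb'
    have htb : t * b = a := by rw [ht]; field_simp
    have e1 : N (x + t • y) ≤ 2 * a := by
      have h := hN t
      rw [abs_of_pos htp] at h
      have h2 : t * N y ≤ a := by
        rw [← htb]; exact mul_le_mul_of_nonneg_left (by linarith) htp.le
      linarith
    have e2 : N (x + (-t) • y) ≤ 2 * a := by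
      have h := hN (-t)
      rw [abs_neg, abs_of_pos htp] at h
      have h2 : t * N y ≤ a := by
        rw [← htb]; exact mul_le_mul_of_nonneg_left (by linarith) htp.le
      linarith
    have e3 : |4 * t * B x y| ≤ C * (2 * a) ^ 2 + C * (2 * a) ^ 2 := by
      rw [← hpol t]
      refine (abs_sub _ _).trans (add_le_add ?_ ?_)
      · exact (hb _).trans (mul_le_mul_of_nonneg_left
          (pow_le_pow_left₀ (hN0 _) e1 2) hC)
      · exact (hb _).trans (mul_le_mul_of_nonneg_left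
          (pow_le_pow_left₀ (hN0 _) e2 2) hC)
    rw [abs_mul, abs_of_pos (by positivity : (0:ℝ) < 4 * t)] at e3
    have e4 : t * |B x y| ≤ t * (2 * C * (a * b)) := by
      have : t * (2 * C * (a * b)) = 2 * C * a * (t * b) := by ring
      rw [this, htb]
      nlinarith
    exact le_of_mul_le_mul_left e4 htp
  have hlim : Tendsto (fun ε : ℝ => 2 * C * ((N x + ε) * (N y + ε))) (𝓝[>] 0)
      (𝓝 (2 * C * ((N x + 0) * (N y + 0)))) := by
    apply Tendsto.mono_left _ nhdsWithin_le_nhds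
    apply Continuous.tendsto
    fun_prop
  rw [add_zero, add_zero] at hlim
  exact ge_of_tendsto hlim (by filter_upwards [self_mem_nhdsWithin] with ε hε using key ε hε)

/-! ### the maximal function -/

theorem Mx_nonneg {m : ℕ → ℝ} {i : ℕ} (hm : ∀ j ≤ i, 0 ≤ m j) (g : ℕ → ℝ) : 0 ≤ Mx m g i := by
  unfold Mx
  refine le_trans ?_ (Finset.le_sup' _ (Finset.mem_range.2 (Nat.succ_pos i)))
  apply div_nonneg
  · exact Finset.sum_nonneg fun j hj => mul_nonneg (hm j (Finset.mem_Icc.1 hj).2) (abs_nonneg _)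
  · exact Finset.sum_nonneg fun j hj => hm j (Finset.mem_Icc.1 hj).2

theorem Mx_add_smul_le {m : ℕ → ℝ} {i : ℕ} (hm : ∀ j ≤ i, 0 ≤ m j) (g h : ℕ → ℝ) (t : ℝ) :
    Mx m (fun j => g j + t * h j) i ≤ Mx m g i + |t| * Mx m h i := by
  unfold Mx
  apply Finset.sup'_le
  intro k hk
  have h1 := Finset.le_sup' (fun k => (∑ j ∈ Finset.Icc k i, m j * |g j|) /
    (∑ j ∈ Finset.Icc k i, m j)) hk
  have h2 := Finset.le_sup' (fun k => (∑ j ∈ Finset.Icc k i, m j * |h j|) /
    (∑ j ∈ Finset.Icc k i, m j)) hk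
  have h3 := mul_le_mul_of_nonneg_left h2 (abs_nonneg t)
  refine le_trans ?_ (add_le_add h1 h3)
  rw [mul_div_assoc', ← add_div]
  apply div_le_div_of_nonneg_right
  · rw [Finset.mul_sum, ← Finset.sum_add_distrib]
    apply Finset.sum_le_sum
    intro j hj
    have hmj := hm j (Finset.mem_Icc.1 hj).2
    have : |g j + t * h j| ≤ |g j| + |t| * |h j| := by
      rw [← abs_mul]; exact abs_add_le _ _
    nlinarith
  · exact Finset.sum_nonneg fun j hj => hm j (Finset.mem_Icc.1 hj).2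

/-! ### the orthant -/

/-- the open orthant -/
def OO (n : ℕ) : Set (Fin n → ℝ) := {m | ∀ i, 0 < m i}

theorem isOpen_OO (n : ℕ) : IsOpen (OO n) := by
  have : OO n = ⋂ i : Fin n, {m : Fin n → ℝ | 0 < m i} := by
    ext m; simp [OO]
  rw [this]
  exact isOpen_iInter_of_finite fun i => isOpen_lt continuous_const (continuous_apply i)

/-- the depth of the atom `i` as a function on the orthant -/
noncomputable def vv (n : ℕ) (i : Fin n) (m : Fin n → ℝ) : ℝ := V (i : ℕ) (ext n m)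

theorem vv_smooth (n : ℕ) (i : Fin n) : ContDiffOn ℝ ∞ (vv n i) (OO n) := by
  intro m hm
  have h : ContDiffAt ℝ ∞ (fun m => V (i : ℕ) (Pool.Agent.US.ext n m)) m :=
    Dbar1.V_contDiffAt (fun j => (hm j).le) (Dbar1.ext_pos hm i.2)
  exact h.contDiffWithinAt

theorem ext_of_lt {n : ℕ} (m : Fin n → ℝ) (i : Fin n) : ext n m i = m i := by
  simp [ext]

theorem ext_pos {n : ℕ} {m : Fin n → ℝ} (hm : ∀ i, 0 < m i) {j : ℕ} (hj : j < n) :
    0 < ext n m j := by
  simp only [ext, hj, dif_pos]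
  exact hm _

theorem ext_scale {n : ℕ} (m g : Fin n → ℝ) (t : ℝ) :
    ext n (m + t • (fun i => m i * g i)) = fun j => ext n m j * (1 + t * ext n g j) := by
  funext j
  by_cases hj : j < n
  · simp only [ext, hj, dif_pos, Pi.add_apply, Pi.smul_apply, smul_eq_mul]
    ring
  · simp [ext, hj]

/-- the maximal function of `g` at `i` -/
noncomputable def MM {n : ℕ} (m g : Fin n → ℝ) (i : Fin n) : ℝ := Mx (ext n m) (ext n g) i

theorem MM_nonneg {n : ℕ} {m : Fin n → ℝ} (hm : ∀ i, 0 < m i) (g : Fin n → ℝ) (i : Fin n) :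
    0 ≤ MM m g i :=
  Mx_nonneg (fun j hj => (ext_pos hm (lt_of_le_of_lt hj i.2)).le) _

theorem MM_add_smul {n : ℕ} {m : Fin n → ℝ} (hm : ∀ i, 0 < m i) (g h : Fin n → ℝ) (t : ℝ)
    (i : Fin n) : MM m (g + t • h) i ≤ MM m g i + |t| * MM m h i := by
  have e : ext n (g + t • h) = fun j => ext n g j + t * ext n h j := by
    funext j
    by_cases hj : j < n
    · simp [ext, hj]
    · simp [ext, hj]
  unfold MM
  rw [e]
  exact Mx_add_smul_le (fun j hj => (ext_pos hm (lt_of_le_of_lt hj i.2)).le) _ _ _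

theorem max_fin (q : ℝ) (hq : 1 < q) : ∃ C : ℝ, 0 ≤ C ∧ ∀ (n : ℕ) (m g : Fin n → ℝ),
    (∀ i, 0 < m i) → ∑ i, m i * (MM m g i) ^ q ≤ C * ∑ i, m i * |g i| ^ q := by
  obtain ⟨C, hC, h⟩ := max_ineq q hq
  refine ⟨C, hC, fun n m g hm => ?_⟩
  have h1 := h n (ext n m) (ext n g) (fun i hi => ext_pos hm hi)
  rw [← Fin.sum_univ_eq_sum_range (fun i => ext n m i * (Mx (ext n m) (ext n g) i) ^ q),
    ← Fin.sum_univ_eq_sum_range (fun i => ext n m i * |ext n g i| ^ q)] at h1
  simpa only [ext_of_lt, MM] using h1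

theorem vv_bounds : ∃ C : ℝ, 0 ≤ C ∧ ∀ (n : ℕ) (m : Fin n → ℝ), (∀ i, 0 < m i) →
    ∀ (g : Fin n → ℝ) (i : Fin n),
      |fderiv ℝ (vv n i) m (fun i => m i * g i)| ≤ C * MM m g i ∧
      |fderiv ℝ (fderiv ℝ (vv n i)) m (fun i => m i * g i) (fun i => m i * g i)| ≤
        C * MM m g i ^ 2 ∧
      |fderiv ℝ (fderiv ℝ (fderiv ℝ (vv n i))) m (fun i => m i * g i) (fun i => m i * g i)
        (fun i => m i * g i)| ≤ C * MM m g i ^ 3 := by
  obtain ⟨C, hC, h⟩ := V_line_of G_deriv_bound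
  refine ⟨C, hC, fun n m hm g i => ?_⟩
  obtain ⟨-, h1⟩ := h i (ext n m) (ext n g) (fun j hj => ext_pos hm (lt_of_le_of_lt hj i.2))
  have e : (fun t : ℝ => V i (fun j => ext n m j * (1 + t * ext n g j))) =
      fun t : ℝ => vv n i (m + t • (fun i => m i * g i)) := by
    funext t
    rw [vv, ext_scale]
  rw [e] at h1
  have h0 : m + (0 : ℝ) • (fun i => m i * g i) = m := by simp
  have hm' : m + (0 : ℝ) • (fun i => m i * g i) ∈ OO n := by rw [h0]; exact hm
  have a1 := h1 1 le_rfl (by norm_num)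
  have a2 := h1 2 (by norm_num) (by norm_num)
  have a3 := h1 3 (by norm_num) le_rfl
  rw [iter_one (isOpen_OO n) (vv_smooth n i) hm', h0, pow_one] at a1
  rw [iter_two (isOpen_OO n) (vv_smooth n i) hm', h0] at a2
  rw [iter_three (isOpen_OO n) (vv_smooth n i) hm', h0] at a3
  exact ⟨a1, a2, a3⟩

/-- the second derivative is symmetric -/
theorem symm_of_smooth {E : Type*} [NormedAddCommGroup E] [NormedSpace ℝ E] {f : E → ℝ}
    {O : Set E} (hO : IsOpen O) (hf : ContDiffOn ℝ ∞ f O) {m : E} (hm : m ∈ O) (x y : E) :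
    fderiv ℝ (fderiv ℝ f) m x y = fderiv ℝ (fderiv ℝ f) m y x := by
  have h1 : ContDiffAt ℝ ∞ f m := hf.contDiffAt (hO.mem_nhds hm)
  have h2 : IsSymmSndFDerivAt ℝ f m := h1.isSymmSndFDerivAt (by
    rw [minSmoothness_of_isRCLikeNormedField]
    exact ENat.LEInfty.out)
  exact h2 x y

theorem vv_mixed : ∃ C : ℝ, 0 ≤ C ∧ ∀ (n : ℕ) (m : Fin n → ℝ), (∀ i, 0 < m i) →
    ∀ (g h : Fin n → ℝ) (i : Fin n),
      |fderiv ℝ (fderiv ℝ (vv n i)) m (fun i => m i * g i) (fun i => m i * h i)| ≤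
        C * (MM m g i * MM m h i) := by
  obtain ⟨C, hC, hb⟩ := vv_bounds
  refine ⟨2 * C, by positivity, fun n m hm g h i => ?_⟩
  have hs := symm_of_smooth (isOpen_OO n) (vv_smooth n i) hm
  refine polar (fun g h : Fin n → ℝ => fderiv ℝ (fderiv ℝ (vv n i)) m (fun i => m i * g i)
    (fun i => m i * h i)) (fun g => MM m g i) hC g h (fun z => MM_nonneg hm z i)
    (fun z => (hb n m hm z i).2.1) (fun t => ?_) (fun t => MM_add_smul hm g h t i)
  have e : ∀ t : ℝ, (fun i => m i * (g + t • h) i) =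
      (fun i => m i * g i) + t • (fun i => m i * h i) := by
    intro t
    funext j
    simp only [Pi.add_apply, Pi.smul_apply, smul_eq_mul]
    ring
  simp only [e, map_add, map_smul, _root_.add_apply,
    _root_.smul_apply, smul_eq_mul]
  rw [hs (fun i => m i * h i) (fun i => m i * g i)]
  ring

/-! ### the functional `DF` -/

theorem DF_eq (n : ℕ) (m : Fin n → ℝ) : DF n m = ∑ i, m i * vv n i m := by
  rw [DF, Dsum, ← Fin.sum_univ_eq_sum_range (fun i => ext n m i * V i (ext n m))]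
  apply Finset.sum_congr rfl
  intro i _
  rw [ext_of_lt]
  rfl

theorem fderiv_DF {n : ℕ} {m : Fin n → ℝ} (hm : m ∈ OO n) :
    fderiv ℝ (DF n) m = ∑ i, (m i • fderiv ℝ (vv n i) m +
      vv n i m • (ContinuousLinearMap.proj (R := ℝ) (φ := fun _ : Fin n => ℝ) i)) := by
  have e : DF n = fun m => ∑ i, m i * vv n i m := funext (DF_eq n)
  rw [e]
  apply HasFDerivAt.fderiv
  apply HasFDerivAt.fun_sum
  intro i _
  have h1 : DifferentiableAt ℝ (vv n i) m :=
    ((vv_smooth n i).contDiffAt ((isOpen_OO n).mem_nhds hm)).differentiableAt (by simp)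
  have h2 : HasFDerivAt (fun m : Fin n → ℝ => m i)
      (ContinuousLinearMap.proj (R := ℝ) (φ := fun _ : Fin n => ℝ) i) m :=
    hasFDerivAt_apply i m
  exact h2.mul h1.hasFDerivAt

theorem fderiv2_DF {n : ℕ} {m : Fin n → ℝ} (hm : m ∈ OO n) (d e : Fin n → ℝ) :
    fderiv ℝ (fderiv ℝ (DF n)) m d e = ∑ i, (m i * fderiv ℝ (fderiv ℝ (vv n i)) m d e +
      d i * fderiv ℝ (vv n i) m e + fderiv ℝ (vv n i) m d * e i) := by
  have h0 : fderiv ℝ (DF n) =ᶠ[𝓝 m] fun m => ∑ i, (m i • fderiv ℝ (vv n i) m +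
      vv n i m • (ContinuousLinearMap.proj (R := ℝ) (φ := fun _ : Fin n => ℝ) i)) := by
    filter_upwards [(isOpen_OO n).mem_nhds hm] with m' hm' using fderiv_DF hm'
  rw [h0.fderiv_eq]
  have h1 : ∀ i : Fin n, HasFDerivAt (vv n i) (fderiv ℝ (vv n i) m) m := fun i =>
    (((vv_smooth n i).contDiffAt ((isOpen_OO n).mem_nhds hm)).differentiableAt
      (by simp)).hasFDerivAt
  have h2 : ∀ i : Fin n, HasFDerivAt (fderiv ℝ (vv n i)) (fderiv ℝ (fderiv ℝ (vv n i)) m) m :=
    fun i => (((smooth_fderiv (isOpen_OO n) (vv_smooth n i)).contDiffAt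
      ((isOpen_OO n).mem_nhds hm)).differentiableAt (by simp)).hasFDerivAt
  have h3 : ∀ i : Fin n, HasFDerivAt (fun m : Fin n → ℝ => m i)
      (ContinuousLinearMap.proj (R := ℝ) (φ := fun _ : Fin n => ℝ) i) m :=
    fun i => hasFDerivAt_apply i m
  have h4 : HasFDerivAt (fun m => ∑ i, (m i • fderiv ℝ (vv n i) m +
      vv n i m • (ContinuousLinearMap.proj (R := ℝ) (φ := fun _ : Fin n => ℝ) i)))
      (∑ i, (m i • fderiv ℝ (fderiv ℝ (vv n i)) m +
        (ContinuousLinearMap.proj (R := ℝ) (φ := fun _ : Fin n => ℝ) i).smulRight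
          (fderiv ℝ (vv n i) m) + (fderiv ℝ (vv n i) m).smulRight
        (ContinuousLinearMap.proj (R := ℝ) (φ := fun _ : Fin n => ℝ) i))) m :=
    HasFDerivAt.fun_sum (u := Finset.univ) (fun i (_ : i ∈ Finset.univ) =>
      ((h3 i).smul (h2 i)).add ((h1 i).smul_const
        (ContinuousLinearMap.proj (R := ℝ) (φ := fun _ : Fin n => ℝ) i)))
  rw [h4.fderiv]
  simp only [_root_.sum_apply, _root_.add_apply, _root_.smul_apply,
    ContinuousLinearMap.smulRight_apply, ContinuousLinearMap.proj_apply, smul_eq_mul]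

theorem DF_smooth (n : ℕ) : ContDiffOn ℝ ∞ (DF n) (OO n) := by
  have e : DF n = fun m => ∑ i, m i * vv n i m := funext (DF_eq n)
  rw [e]
  apply ContDiffOn.sum
  intro i _
  exact (contDiff_apply ℝ ℝ i).contDiffOn.mul (vv_smooth n i)

theorem fderiv3_DF {n : ℕ} {m : Fin n → ℝ} (hm : m ∈ OO n) (d : Fin n → ℝ) :
    fderiv ℝ (fderiv ℝ (fderiv ℝ (DF n))) m d d d =
      ∑ i, (m i * fderiv ℝ (fderiv ℝ (fderiv ℝ (vv n i))) m d d d +
        3 * d i * fderiv ℝ (fderiv ℝ (vv n i)) m d d) := by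
  have h0 : m + (0 : ℝ) • d = m := by simp
  have hm' : m + (0 : ℝ) • d ∈ OO n := by rw [h0]; exact hm
  have a := (hasDerivAt_iter_two (isOpen_OO n) (DF_smooth n) hm').deriv
  rw [h0] at a
  rw [← a]
  have e : iteratedDeriv 2 (fun s : ℝ => DF n (m + s • d)) =ᶠ[𝓝 0] fun s => ∑ i,
      ((m i + s * d i) * iteratedDeriv 2 (fun s : ℝ => vv n i (m + s • d)) s +
        2 * d i * iteratedDeriv 1 (fun s : ℝ => vv n i (m + s • d)) s) := by
    filter_upwards [eventually_line (isOpen_OO n) hm'] with s hs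
    rw [iter_two (isOpen_OO n) (DF_smooth n) hs, fderiv2_DF hs]
    apply Finset.sum_congr rfl
    intro i _
    rw [iter_two (isOpen_OO n) (vv_smooth n i) hs, iter_one (isOpen_OO n) (vv_smooth n i) hs]
    simp only [Pi.add_apply, Pi.smul_apply, smul_eq_mul]
    ring
  rw [e.deriv_eq]
  apply HasDerivAt.deriv
  apply HasDerivAt.fun_sum
  intro i _
  have b2 := hasDerivAt_iter_two (isOpen_OO n) (vv_smooth n i) hm'
  have b1 := hasDerivAt_iter_one (isOpen_OO n) (vv_smooth n i) hm'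
  have b3 := iter_two (isOpen_OO n) (vv_smooth n i) hm'
  rw [h0] at b1 b2 b3
  have c1 : HasDerivAt (fun s : ℝ => m i + s * d i) (d i) 0 := by
    simpa using ((hasDerivAt_id (0 : ℝ)).mul_const (d i)).const_add (m i)
  have c2 : HasDerivAt (fun s => (m i + s * d i) *
        iteratedDeriv 2 (fun s : ℝ => vv n i (m + s • d)) s +
        2 * d i * iteratedDeriv 1 (fun s : ℝ => vv n i (m + s • d)) s)
      (d i * iteratedDeriv 2 (fun s : ℝ => vv n i (m + s • d)) 0 +
        (m i + 0 * d i) * (((fderiv ℝ (fderiv ℝ (fderiv ℝ (vv n i))) m) d) d) d +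
      2 * d i * ((fderiv ℝ (fderiv ℝ (vv n i)) m) d) d) 0 :=
    (c1.mul b2).add (b1.const_mul (2 * d i))
  have e5 : m i * fderiv ℝ (fderiv ℝ (fderiv ℝ (vv n i))) m d d d +
        3 * d i * fderiv ℝ (fderiv ℝ (vv n i)) m d d =
      (d i * iteratedDeriv 2 (fun s : ℝ => vv n i (m + s • d)) 0 +
        (m i + 0 * d i) * (((fderiv ℝ (fderiv ℝ (fderiv ℝ (vv n i))) m) d) d) d +
      2 * d i * ((fderiv ℝ (fderiv ℝ (vv n i)) m) d) d) := by
    rw [b3]
    ring
  rw [e5]
  exact c2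

/-! ### the estimates -/

theorem rp2 (x : ℝ) : x ^ (2 : ℝ) = x ^ 2 := by exact_mod_cast Real.rpow_natCast x 2

theorem rp3 (x : ℝ) : x ^ (3 : ℝ) = x ^ 3 := by exact_mod_cast Real.rpow_natCast x 3

theorem young3 {a b : ℝ} (ha : 0 ≤ a) (hb : 0 ≤ b) : a * b ≤ a ^ 3 + b ^ (3 / 2 : ℝ) := by
  have h := Real.young_inequality_of_nonneg ha hb
    (p := 3) (q := 3 / 2) (Real.holderConjugate_iff.2 ⟨by norm_num, by norm_num⟩)
  have h3 : a ^ (3 : ℝ) = a ^ 3 := by exact_mod_cast Real.rpow_natCast a 3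
  rw [h3] at h
  have h4 : 0 ≤ a ^ 3 := by positivity
  have h5 : 0 ≤ b ^ (3 / 2 : ℝ) := by positivity
  linarith [div_le_self h4 (by norm_num : (1:ℝ) ≤ 3), div_le_self h5 (by norm_num : (1:ℝ) ≤ 3/2)]

theorem DF_bounds : ∃ C : ℝ, 0 < C ∧ ∀ n,
    (∀ m : Fin n → ℝ, (∀ i, 0 < m i) → ∀ g : Fin n → ℝ,
      |fderiv ℝ (fderiv ℝ (DF n)) m (fun i => m i * g i) (fun i => m i * g i)| ≤
        C * ∑ i, m i * g i ^ 2) ∧
    (∀ m : Fin n → ℝ, (∀ i, 0 < m i) → ∀ g : Fin n → ℝ,
      |fderiv ℝ (fderiv ℝ (DF n)) m (fun i => m i * g i) (fun i => m i * (g i * |g i|))| ≤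
        C * ∑ i, m i * |g i| ^ 3) ∧
    (∀ m : Fin n → ℝ, (∀ i, 0 < m i) → ∀ g : Fin n → ℝ,
      |fderiv ℝ (fderiv ℝ (fderiv ℝ (DF n))) m (fun i => m i * g i) (fun i => m i * g i)
        (fun i => m i * g i)| ≤ C * ∑ i, m i * |g i| ^ 3) := by
  obtain ⟨C, hC, hb⟩ := vv_bounds
  obtain ⟨C', hC', hx⟩ := vv_mixed
  obtain ⟨C2, hC2, h2⟩ := max_fin 2 (by norm_num)
  obtain ⟨C3, hC3, h3⟩ := max_fin 3 (by norm_num)
  obtain ⟨Ch, hCh, hh⟩ := max_fin (3 / 2) (by norm_num)
  set A := C + C' with hA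
  have hA0 : 0 ≤ A := by positivity
  refine ⟨1 + A * (2 + 2 * C2) + A * (4 + 4 * C3 + 4 * Ch) , by positivity, fun n => ⟨?_, ?_, ?_⟩⟩
  · intro m hm g
    have hmO : m ∈ OO n := hm
    rw [fderiv2_DF hmO]
    have h2' := h2 n m g hm
    have e1 : ∑ i, m i * MM m g i ^ (2 : ℝ) = ∑ i, m i * MM m g i ^ 2 :=
      Finset.sum_congr rfl fun i _ => by
        rw [rp2]
    have e2 : ∑ i, m i * |g i| ^ (2 : ℝ) = ∑ i, m i * g i ^ 2 :=
      Finset.sum_congr rfl fun i _ => by
        rw [rp2, sq_abs]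
    rw [e1, e2] at h2'
    have hS : 0 ≤ ∑ i, m i * g i ^ 2 :=
      Finset.sum_nonneg fun i _ => mul_nonneg (hm i).le (sq_nonneg _)
    refine (Finset.abs_sum_le_sum_abs _ _).trans ?_
    have hpt : ∀ i, |m i * fderiv ℝ (fderiv ℝ (vv n i)) m (fun i => m i * g i)
          (fun i => m i * g i) +
        m i * g i * fderiv ℝ (vv n i) m (fun i => m i * g i) +
        fderiv ℝ (vv n i) m (fun i => m i * g i) * (m i * g i)| ≤
        A * (m i * g i ^ 2) + 2 * A * (m i * MM m g i ^ 2) := by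
      intro i
      obtain ⟨b1, b2, -⟩ := hb n m hm g i
      have hM := MM_nonneg hm g i
      have hmi := (hm i).le
      have hCA : C ≤ A := by rw [hA]; linarith
      rw [show ∀ x y : ℝ, m i * x + m i * g i * y + y * (m i * g i) =
        m i * (x + 2 * (g i * y)) from fun x y => by ring, abs_mul, abs_of_pos (hm i)]
      rw [show A * (m i * g i ^ 2) + 2 * A * (m i * MM m g i ^ 2) =
        m i * (A * g i ^ 2 + 2 * A * MM m g i ^ 2) by ring]
      apply mul_le_mul_of_nonneg_left _ hmi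
      refine (abs_add_le _ _).trans ?_
      rw [abs_mul 2, abs_mul (g i), abs_of_pos (by norm_num : (0:ℝ) < 2)]
      have c1 : |g i| * |fderiv ℝ (vv n i) m (fun i => m i * g i)| ≤ |g i| * (C * MM m g i) :=
        mul_le_mul_of_nonneg_left b1 (abs_nonneg _)
      have c2 : 2 * (|g i| * MM m g i) ≤ g i ^ 2 + MM m g i ^ 2 := by
        nlinarith [sq_nonneg (|g i| - MM m g i), sq_abs (g i)]
      have c3 : 0 ≤ g i ^ 2 + 2 * MM m g i ^ 2 := by positivity
      nlinarith [mul_le_mul_of_nonneg_right hCA c3, mul_le_mul_of_nonneg_left c2 hC]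
    refine (Finset.sum_le_sum fun i _ => hpt i).trans ?_
    rw [Finset.sum_add_distrib, ← Finset.mul_sum, ← Finset.mul_sum]
    have : 0 ≤ A * (4 + 4 * C3 + 4 * Ch) * ∑ i, m i * g i ^ 2 := by positivity
    nlinarith [mul_le_mul_of_nonneg_left h2' hA0]
  · intro m hm g
    have hmO : m ∈ OO n := hm
    rw [fderiv2_DF hmO]
    have h3' := h3 n m g hm
    have hh' := hh n m (fun i => g i * |g i|) hm
    have e1 : ∑ i, m i * MM m g i ^ (3 : ℝ) = ∑ i, m i * MM m g i ^ 3 :=
      Finset.sum_congr rfl fun i _ => by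
        rw [rp3]
    have e2 : ∑ i, m i * |g i| ^ (3 : ℝ) = ∑ i, m i * |g i| ^ 3 :=
      Finset.sum_congr rfl fun i _ => by
        rw [rp3]
    have e3 : ∑ i, m i * abs (g i * |g i|) ^ (3 / 2 : ℝ) = ∑ i, m i * |g i| ^ 3 :=
      Finset.sum_congr rfl fun i _ => by
        rw [abs_mul, abs_abs, ← sq, ← Real.rpow_natCast, ← Real.rpow_mul (abs_nonneg _),
          ← Real.rpow_natCast]
        norm_num
    rw [e1, e2] at h3'
    rw [e3] at hh'
    have hS : 0 ≤ ∑ i, m i * |g i| ^ 3 :=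
      Finset.sum_nonneg fun i _ => mul_nonneg (hm i).le (by positivity)
    refine (Finset.abs_sum_le_sum_abs _ _).trans ?_
    have hpt : ∀ i, |m i * fderiv ℝ (fderiv ℝ (vv n i)) m (fun i => m i * g i)
          (fun i => m i * (g i * |g i|)) +
        m i * g i * fderiv ℝ (vv n i) m (fun i => m i * (g i * |g i|)) +
        fderiv ℝ (vv n i) m (fun i => m i * g i) * (m i * (g i * |g i|))| ≤
        2 * A * (m i * |g i| ^ 3) + 2 * A * (m i * MM m g i ^ 3) +
          2 * A * (m i * MM m (fun i => g i * |g i|) i ^ (3 / 2 : ℝ)) := by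
      intro i
      obtain ⟨b1, -, -⟩ := hb n m hm g i
      obtain ⟨b1', -, -⟩ := hb n m hm (fun i => g i * |g i|) i
      have b2 := hx n m hm g (fun i => g i * |g i|) i
      set X := fderiv ℝ (fderiv ℝ (vv n i)) m (fun i => m i * g i)
          (fun i => m i * (g i * |g i|)) with hX
      set Y' := fderiv ℝ (vv n i) m (fun i => m i * (g i * |g i|)) with hY'
      set Z := fderiv ℝ (vv n i) m (fun i => m i * g i) with hZ
      have hM := MM_nonneg hm g i
      have hM' := MM_nonneg hm (fun i => g i * |g i|) i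
      set P := MM m g i with hP
      set Q := MM m (fun i => g i * |g i|) i with hQ
      have hmi := (hm i).le
      have hCA : C ≤ A := by rw [hA]; linarith
      have hCA' : C' ≤ A := by rw [hA]; linarith
      rw [show m i * X + m i * g i * Y' + Z * (m i * (g i * |g i|)) =
        m i * (X + g i * Y' + Z * (g i * |g i|)) by ring, abs_mul, abs_of_pos (hm i)]
      rw [show 2 * A * (m i * |g i| ^ 3) + 2 * A * (m i * P ^ 3) +
          2 * A * (m i * Q ^ (3 / 2 : ℝ)) =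
        m i * (2 * A * (|g i| ^ 3 + P ^ 3 + Q ^ (3 / 2 : ℝ))) by ring]
      apply mul_le_mul_of_nonneg_left _ hmi
      have y1 := young3 (abs_nonneg (g i)) hM'
      have y2 := young3 hM (by positivity : 0 ≤ |g i| ^ 2)
      have y2' : (|g i| ^ 2) ^ (3 / 2 : ℝ) = |g i| ^ 3 := by
        rw [← Real.rpow_natCast, ← Real.rpow_mul (abs_nonneg _), ← Real.rpow_natCast]
        norm_num
      rw [y2'] at y2
      have y3 := young3 hM hM'
      have t1 : |X| ≤ A * (P * Q) := b2.trans (mul_le_mul_of_nonneg_right hCA' (by positivity))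
      have t2 : |g i * Y'| ≤ A * (|g i| * Q) := by
        rw [abs_mul]
        calc |g i| * |Y'| ≤ |g i| * (C * Q) := mul_le_mul_of_nonneg_left b1' (abs_nonneg _)
          _ = C * (|g i| * Q) := by ring
          _ ≤ A * (|g i| * Q) := mul_le_mul_of_nonneg_right hCA (by positivity)
      have t3 : |Z * (g i * |g i|)| ≤ A * (P * |g i| ^ 2) := by
        rw [abs_mul, abs_mul, abs_abs]
        calc |Z| * (|g i| * |g i|) ≤ (C * P) * (|g i| * |g i|) :=
              mul_le_mul_of_nonneg_right b1 (by positivity)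
          _ = C * (P * |g i| ^ 2) := by ring
          _ ≤ A * (P * |g i| ^ 2) := mul_le_mul_of_nonneg_right hCA (by positivity)
      calc |X + g i * Y' + Z * (g i * |g i|)| ≤ |X| + |g i * Y'| + |Z * (g i * |g i|)| :=
            (abs_add_le _ _).trans (add_le_add (abs_add_le _ _) le_rfl)
        _ ≤ A * (P * Q) + A * (|g i| * Q) + A * (P * |g i| ^ 2) := by linarith
        _ ≤ A * (P ^ 3 + Q ^ (3 / 2 : ℝ)) + A * (|g i| ^ 3 + Q ^ (3 / 2 : ℝ)) +
            A * (P ^ 3 + |g i| ^ 3) := by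
          have z1 := mul_le_mul_of_nonneg_left y1 hA0
          have z2 := mul_le_mul_of_nonneg_left y2 hA0
          have z3 := mul_le_mul_of_nonneg_left y3 hA0
          linarith
        _ = 2 * A * (|g i| ^ 3 + P ^ 3 + Q ^ (3 / 2 : ℝ)) := by ring
    refine (Finset.sum_le_sum fun i _ => hpt i).trans ?_
    rw [Finset.sum_add_distrib, Finset.sum_add_distrib, ← Finset.mul_sum, ← Finset.mul_sum,
      ← Finset.mul_sum]
    have k1 := mul_le_mul_of_nonneg_left h3' (by positivity : 0 ≤ 2 * A)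
    have k2 := mul_le_mul_of_nonneg_left hh' (by positivity : 0 ≤ 2 * A)
    have k3 : 0 ≤ A * (2 + 2 * C2) * ∑ i, m i * |g i| ^ 3 := by positivity
    have k4 : 0 ≤ A * ∑ i, m i * |g i| ^ 3 := by positivity
    have k5 : 0 ≤ A * C3 * ∑ i, m i * |g i| ^ 3 := by positivity
    have k6 : 0 ≤ A * Ch * ∑ i, m i * |g i| ^ 3 := by positivity
    nlinarith
  · intro m hm g
    have hmO : m ∈ OO n := hm
    rw [fderiv3_DF hmO]
    have h3' := h3 n m g hm
    have e1 : ∑ i, m i * MM m g i ^ (3 : ℝ) = ∑ i, m i * MM m g i ^ 3 :=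
      Finset.sum_congr rfl fun i _ => by
        rw [rp3]
    have e2 : ∑ i, m i * |g i| ^ (3 : ℝ) = ∑ i, m i * |g i| ^ 3 :=
      Finset.sum_congr rfl fun i _ => by
        rw [rp3]
    rw [e1, e2] at h3'
    have hS : 0 ≤ ∑ i, m i * |g i| ^ 3 :=
      Finset.sum_nonneg fun i _ => mul_nonneg (hm i).le (by positivity)
    refine (Finset.abs_sum_le_sum_abs _ _).trans ?_
    have hpt : ∀ i, |m i * fderiv ℝ (fderiv ℝ (fderiv ℝ (vv n i))) m (fun i => m i * g i)
          (fun i => m i * g i) (fun i => m i * g i) +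
        3 * (m i * g i) * fderiv ℝ (fderiv ℝ (vv n i)) m (fun i => m i * g i)
          (fun i => m i * g i)| ≤
        3 * A * (m i * |g i| ^ 3) + 4 * A * (m i * MM m g i ^ 3) := by
      intro i
      obtain ⟨-, b2, b3⟩ := hb n m hm g i
      set X := fderiv ℝ (fderiv ℝ (fderiv ℝ (vv n i))) m (fun i => m i * g i)
          (fun i => m i * g i) (fun i => m i * g i) with hX
      set Y' := fderiv ℝ (fderiv ℝ (vv n i)) m (fun i => m i * g i)
          (fun i => m i * g i) with hY'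
      have hM := MM_nonneg hm g i
      set P := MM m g i with hP
      have hmi := (hm i).le
      have hCA : C ≤ A := by rw [hA]; linarith
      rw [show m i * X + 3 * (m i * g i) * Y' = m i * (X + 3 * (g i * Y')) by ring, abs_mul,
        abs_of_pos (hm i)]
      rw [show 3 * A * (m i * |g i| ^ 3) + 4 * A * (m i * P ^ 3) =
        m i * (A * (3 * |g i| ^ 3 + 4 * P ^ 3)) by ring]
      apply mul_le_mul_of_nonneg_left _ hmi
      have hg := abs_nonneg (g i)
      have y1 : |g i| * P ^ 2 ≤ |g i| ^ 3 + P ^ 3 := by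
        rcases le_total (|g i|) P with h | h
        · nlinarith [mul_le_mul_of_nonneg_right h (sq_nonneg P), pow_nonneg hg 3]
        · nlinarith [mul_le_mul_of_nonneg_left (mul_self_le_mul_self hM h) hg, pow_nonneg hM 3]
      have t1 : |g i * Y'| ≤ C * (|g i| * P ^ 2) := by
        rw [abs_mul]
        calc |g i| * |Y'| ≤ |g i| * (C * P ^ 2) := mul_le_mul_of_nonneg_left b2 hg
          _ = C * (|g i| * P ^ 2) := by ring
      calc |X + 3 * (g i * Y')| ≤ |X| + |3 * (g i * Y')| := abs_add_le _ _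
        _ = |X| + 3 * |g i * Y'| := by rw [abs_mul 3, abs_of_pos (by norm_num : (0:ℝ) < 3)]
        _ ≤ C * P ^ 3 + 3 * (C * (|g i| * P ^ 2)) := by linarith
        _ ≤ C * P ^ 3 + 3 * (C * (|g i| ^ 3 + P ^ 3)) := by
          have := mul_le_mul_of_nonneg_left y1 hC
          linarith
        _ = C * (3 * |g i| ^ 3 + 4 * P ^ 3) := by ring
        _ ≤ A * (3 * |g i| ^ 3 + 4 * P ^ 3) := mul_le_mul_of_nonneg_right hCA (by positivity)
    refine (Finset.sum_le_sum fun i _ => hpt i).trans ?_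
    rw [Finset.sum_add_distrib, ← Finset.mul_sum, ← Finset.mul_sum]
    have k1 := mul_le_mul_of_nonneg_left h3' (by positivity : 0 ≤ 4 * A)
    have k3 : 0 ≤ A * (2 + 2 * C2) * ∑ i, m i * |g i| ^ 3 := by positivity
    have k4 : 0 ≤ A * ∑ i, m i * |g i| ^ 3 := by positivity
    have k5 : 0 ≤ A * C3 * ∑ i, m i * |g i| ^ 3 := by positivity
    have k6 : 0 ≤ A * Ch * ∑ i, m i * |g i| ^ 3 := by positivity
    nlinarith

end AB

/-- Module A6. -/
theorem DF_good : ∃ C : ℝ, 0 < C ∧ ∀ n, Good n (DF n) C := by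
  obtain ⟨C, hC, h⟩ := AB.DF_bounds
  obtain ⟨C', hC', hV⟩ := V_line_of G_deriv_bound
  exact ⟨C, hC, fun n => good_of_line hC' hV n (h n).1 (h n).2.1 (h n).2.2⟩

end Pool.Agent.US
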